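import Pool.Agent.Q287.BA.Pad

/-!
# One-variable equations over one-relator groups: bounded advice does not help

Let `c 0, …, c (n - 1)` be named elements of a group. Suppose that there are `k` algorithms such that
for every length `N` one of them gives the wrong answer for few words of length `N` only; which one
may depend on `N` in an arbitrary, non-computable way. Then the single one-variable equation problem
is decidable. Proof: append random identities to the given word and vote; this gives `k` candidates
for the answer for each large length, one of which is right. There is a finite set of words for which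
the number of the candidates with the right answers is minimal for infinitely many lengths, and then
all these candidates agree on every other word for infinitely many lengths.
-/

set_option autoImplicit false

namespace Pool.Agent.Results.MP_1ebeae_al.BoundedAdvice

/-- The letters `x_i`, `x_i⁻¹` (`some i` with `true`, `false`) and `x`, `x⁻¹` (`none`). -/
abbrev Letter (n : ℕ) : Type := Option (Fin n) × Bool

/-- The value `w(g)` of the word `w`: the letters `x_i` have the values `c i`, the unknown `x` has the
value `g`. -/
def val {G : Type} [Group G] {n : ℕ} (c : Fin n → G) (g : G) (w : List (Letter n)) : G :=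
  (w.map fun a => if a.2 then a.1.elim g c else (a.1.elim g c)⁻¹).prod

/-- The equation `w(x) = 1` is satisfiable in `G`. -/
def Sat {G : Type} [Group G] {n : ℕ} (c : Fin n → G) (w : List (Letter n)) : Prop :=
  ∃ g : G, val c g w = 1

/-- The words of length `b` which are identities: they have the value `1` for every value of the
unknown. -/
def identities {G : Type} [Group G] {n : ℕ} (c : Fin n → G) (b : ℕ) : Set (List (Letter n)) :=
  {t | t.length = b ∧ ∀ g : G, val c g t = 1}

/-- For every length `N` one of the algorithms `A (0, ·), …, A (k - 1, ·)` gives the wrong answer for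
at most `C ρ ^ N` words of length `N`, where `ρ ^ b` is smaller than the number of identities of
length `b`, for some `b`. -/
def OneOfFew {G : Type} [Group G] {n : ℕ} (c : Fin n → G) (k : ℕ)
    (A : ℕ × List (Letter n) → Bool) : Prop :=
  ∃ (b : ℕ) (C ρ : ℝ), 0 ≤ ρ ∧ ρ ^ b < (identities c b).ncard ∧
    ∀ N : ℕ, ∃ i < k,
      ({w : List (Letter n) | w.length = N ∧ ¬ (A (i, w) = true ↔ Sat c w)}.ncard : ℝ) ≤ C * ρ ^ N

/-- The generators of the one-relator group with the generators `x_0, …, x_(n-1)` and the relator
`r`. -/
def gens {n : ℕ} (r : FreeGroup (Fin n)) : Fin n → PresentedGroup {r} := fun i => PresentedGroup.of i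

theorem val_append {G : Type} [Group G] {n : ℕ} (c : Fin n → G) (g : G) (w t : List (Letter n)) :
    val c g (w ++ t) = val c g w * val c g t := by
  unfold val
  rw [List.map_append, List.prod_append]

theorem two_le {G : Type} [Group G] {n : ℕ} (c : Fin n → G) :
    2 * (n + 1) ≤ (identities c 2).ncard := by
  let f : Letter n → List (Letter n) := fun a => [a, (a.1, !a.2)]
  have hf : Function.Injective f := by
    intro a b hab
    simp only [f, List.cons.injEq] at hab
    exact hab.1
  have h1 : f '' Set.univ ⊆ identities c 2 := by
    rintro _ ⟨a, -, rfl⟩
    refine ⟨rfl, fun g => ?_⟩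
    unfold val
    rcases a with ⟨o, b⟩
    cases b <;> simp [f]
  have h2 : (identities c 2).Finite :=
    (List.finite_length_eq (Letter n) 2).subset (fun u hu => hu.1)
  have h3 := Set.ncard_le_ncard h1 h2
  rw [Set.ncard_image_of_injective _ hf, Set.ncard_univ, Nat.card_eq_fintype_card,
    Fintype.card_prod, Fintype.card_option, Fintype.card_fin, Fintype.card_bool] at h3
  omega

theorem main {G : Type} [Group G] {n : ℕ} (c : Fin n → G) :
    ComputablePred (Sat c) ↔
      ∃ (k : ℕ) (A : ℕ × List (Letter n) → Bool), Computable A ∧ OneOfFew c k A := by
  classical
  constructor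
  · rintro ⟨_, h⟩
    refine ⟨1, fun x => decide (Sat c x.2), h.comp Computable.snd, 2, 0, 1, zero_le_one, ?_,
      fun N => ⟨0, Nat.one_pos, ?_⟩⟩
    · have := two_le c
      have h1 : 1 < (identities c 2).ncard := by omega
      rw [one_pow]
      exact_mod_cast h1
    · have h1 : {w : List (Letter n) | w.length = N ∧ ¬ (decide (Sat c w) = true ↔ Sat c w)} = ∅ := by
        ext w
        simp
      rw [h1]
      simp
  · rintro ⟨k, A, hA, b, C, ρ, h0, h1, h2⟩
    have hfin : (identities c b).Finite :=
      (List.finite_length_eq (Letter n) b).subset (fun u hu => hu.1)
    have hlen : hfin.toFinset.toList.length = (identities c b).ncard := by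
      rw [Finset.length_toList, Set.ncard_eq_toFinset_card _ hfin]
    refine Pool.Agent.Q287.BA.Pad.advice (L := hfin.toFinset.toList) (b := b) (C := C) (ρ := ρ) hA
      (Finset.nodup_toList _) ?_ ?_ h0 (by rw [hlen]; exact h1) h2
    · intro t ht
      rw [Finset.mem_toList, Set.Finite.mem_toFinset] at ht
      exact ht.1
    · intro w t ht
      rw [Finset.mem_toList, Set.Finite.mem_toFinset] at ht
      unfold Sat
      constructor
      · rintro ⟨g, hg⟩
        rw [val_append, ht.2, mul_one] at hg
        exact ⟨g, hg⟩
      · rintro ⟨g, hg⟩
        refine ⟨g, ?_⟩
        rw [val_append, ht.2, mul_one]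
        exact hg

/-- **Bounded advice does not help for one-variable equations, even if errors are allowed.**
(1) For every one-relator group the single one-variable equation problem is decidable if and only if
there are `k` algorithms, for some `k`, such that for each length one of them has few errors.
(2) The same for every group `G` and every finite tuple `c` of elements of `G` as constants. -/
theorem result :
    (∀ (n : ℕ) (r : FreeGroup (Fin n)), ComputablePred (Sat (gens r)) ↔
      ∃ (k : ℕ) (A : ℕ × List (Letter n) → Bool), Computable A ∧ OneOfFew (gens r) k A) ∧
    ∀ (G : Type) [Group G] (n : ℕ) (c : Fin n → G), ComputablePred (Sat c) ↔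
      ∃ (k : ℕ) (A : ℕ × List (Letter n) → Bool), Computable A ∧ OneOfFew c k A :=
  ⟨fun _ r => main (gens r), fun _ _ _ c => main c⟩

end Pool.Agent.Results.MP_1ebeae_al.BoundedAdvice
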