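import Pool.Agent.Q252.WC.Pad

/-!
# One-variable equations over one-relator groups: few errors suffice

The single one-variable equation problem of a group with named elements `c 0, …, c (n - 1)` is
decidable if some algorithm gives the wrong answer for few words only: for at most `C ρ ^ N` words of
length `N`, where `ρ` is smaller than the growth rate of the words which are identities (one for every
value of the unknown).  Proof: append random identities to the given word and vote.
-/

set_option autoImplicit false

namespace Pool.Agent.Results.MP_1ebeae_al.WorstCaseFromMostEquations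

/-- The letters `x_i`, `x_i⁻¹` (`some i` with `true`, `false`) and `x`, `x⁻¹` (`none`). -/
abbrev Letter (n : ℕ) : Type := Option (Fin n) × Bool

/-- The value `w(g)` of the word `w`: the letters `x_i` have the values `c i`, the unknown `x` has the
value `g`. -/
def val {G : Type} [Group G] {n : ℕ} (c : Fin n → G) (g : G) (w : List (Letter n)) : G :=
  (w.map fun a => if a.2 then a.1.elim g c else (a.1.elim g c)⁻¹).prod

/-- The equation `w(x) = 1` is satisfiable in `G`. -/
def Sat {G : Type} [Group G] {n : ℕ} (c : Fin n → G) (w : List (Letter n)) : Prop :=
  ∃ g : G, val c g w = 1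

/-- The words of length `b` which are identities: they have the value `1` for every value of the
unknown. -/
def identities {G : Type} [Group G] {n : ℕ} (c : Fin n → G) (b : ℕ) : Set (List (Letter n)) :=
  {t | t.length = b ∧ ∀ g : G, val c g t = 1}

/-- The algorithm `A` gives the wrong answer for at most `C ρ ^ N` words of length `N` (for all `N`),
where `ρ ^ b` is smaller than the number of identities of length `b`, for some `b`. -/
def FewErrors {G : Type} [Group G] {n : ℕ} (c : Fin n → G) (A : List (Letter n) → Bool) : Prop :=
  ∃ (b : ℕ) (C ρ : ℝ), 0 ≤ ρ ∧ ρ ^ b < (identities c b).ncard ∧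
    ∀ N : ℕ, ({w : List (Letter n) | w.length = N ∧ ¬ (A w = true ↔ Sat c w)}.ncard : ℝ) ≤ C * ρ ^ N

/-- The generators of the one-relator group with the generators `x_0, …, x_(n-1)` and the relator
`r`. -/
def gens {n : ℕ} (r : FreeGroup (Fin n)) : Fin n → PresentedGroup {r} := fun i => PresentedGroup.of i

theorem val_append {G : Type} [Group G] {n : ℕ} (c : Fin n → G) (g : G) (w t : List (Letter n)) :
    val c g (w ++ t) = val c g w * val c g t := by
  unfold val
  rw [List.map_append, List.prod_append]

theorem two_le {G : Type} [Group G] {n : ℕ} (c : Fin n → G) :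
    2 * (n + 1) ≤ (identities c 2).ncard := by
  let f : Letter n → List (Letter n) := fun a => [a, (a.1, !a.2)]
  have hf : Function.Injective f := by
    intro a b hab
    simp only [f, List.cons.injEq] at hab
    exact hab.1
  have h1 : f '' Set.univ ⊆ identities c 2 := by
    rintro _ ⟨a, -, rfl⟩
    refine ⟨rfl, fun g => ?_⟩
    unfold val
    rcases a with ⟨o, b⟩
    cases b <;> simp [f]
  have h2 : (identities c 2).Finite :=
    (List.finite_length_eq (Letter n) 2).subset (fun u hu => hu.1)
  have h3 := Set.ncard_le_ncard h1 h2
  rw [Set.ncard_image_of_injective _ hf, Set.ncard_univ, Nat.card_eq_fintype_card,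
    Fintype.card_prod, Fintype.card_option, Fintype.card_fin, Fintype.card_bool] at h3
  omega

theorem main {G : Type} [Group G] {n : ℕ} (c : Fin n → G) :
    ComputablePred (Sat c) ↔ ∃ A : List (Letter n) → Bool, Computable A ∧ FewErrors c A := by
  classical
  constructor
  · rintro ⟨_, h⟩
    refine ⟨_, h, 2, 0, 1, zero_le_one, ?_, fun N => ?_⟩
    · have := two_le c
      have h1 : 1 < (identities c 2).ncard := by omega
      rw [one_pow]
      exact_mod_cast h1
    · have h1 : {w : List (Letter n) | w.length = N ∧ ¬ (decide (Sat c w) = true ↔ Sat c w)} = ∅ := by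
        ext w
        simp
      rw [h1]
      simp
  · rintro ⟨A, hA, b, C, ρ, h0, h1, h2⟩
    have hfin : (identities c b).Finite :=
      (List.finite_length_eq (Letter n) b).subset (fun u hu => hu.1)
    have hlen : hfin.toFinset.toList.length = (identities c b).ncard := by
      rw [Finset.length_toList, Set.ncard_eq_toFinset_card _ hfin]
    refine Pool.Agent.Q252.WC.correct (L := hfin.toFinset.toList) (b := b) (C := C) (ρ := ρ) hA
      (Finset.nodup_toList _) ?_ ?_ h0 (by rw [hlen]; exact h1) h2
    · intro t ht
      rw [Finset.mem_toList, Set.Finite.mem_toFinset] at ht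
      exact ht.1
    · intro w t ht
      rw [Finset.mem_toList, Set.Finite.mem_toFinset] at ht
      unfold Sat
      constructor
      · rintro ⟨g, hg⟩
        rw [val_append, ht.2, mul_one] at hg
        exact ⟨g, hg⟩
      · rintro ⟨g, hg⟩
        refine ⟨g, ?_⟩
        rw [val_append, ht.2, mul_one]
        exact hg

/-- **Few errors suffice for one-variable equations.**
(1) For every one-relator group the single one-variable equation problem is decidable if and only if
there is an algorithm with few errors.
(2) Q1 holds if and only if for each one-relator group there is an algorithm with few errors.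
(3) The same as (1) for every group `G` and every finite tuple `c` of elements of `G` as constants.
(4) There are at least `2 (n + 1)` identities of length `2`, so every `ρ < (2 (n + 1)) ^ (1/2)` is
allowed in the definition of few errors. -/
theorem result :
    (∀ (n : ℕ) (r : FreeGroup (Fin n)), ComputablePred (Sat (gens r)) ↔
      ∃ A : List (Letter n) → Bool, Computable A ∧ FewErrors (gens r) A) ∧
    ((∀ (n : ℕ) (r : FreeGroup (Fin n)), ComputablePred (Sat (gens r))) ↔
      ∀ (n : ℕ) (r : FreeGroup (Fin n)), ∃ A : List (Letter n) → Bool,
        Computable A ∧ FewErrors (gens r) A) ∧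
    (∀ (G : Type) [Group G] (n : ℕ) (c : Fin n → G), ComputablePred (Sat c) ↔
      ∃ A : List (Letter n) → Bool, Computable A ∧ FewErrors c A) ∧
    ∀ (G : Type) [Group G] (n : ℕ) (c : Fin n → G), 2 * (n + 1) ≤ (identities c 2).ncard :=
  ⟨fun _ r => main (gens r), ⟨fun h n r => (main (gens r)).1 (h n r),
    fun h n r => (main (gens r)).2 (h n r)⟩, fun _ _ _ c => main c, fun _ _ _ c => two_le c⟩

end Pool.Agent.Results.MP_1ebeae_al.WorstCaseFromMostEquations
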